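import Pool.Agent.C1B.Assemble
import Pool.Agent.C1B.DenseCard

/-!
Problem MP_0d212c_an, Q1 (does every Asplund space admit a `C^1`-smooth bump function?).

The question is equivalent to a quantitative one, on the class of all Asplund spaces and, level
by level, on the class of all Asplund spaces of density at most `κ`, for every infinite cardinal
`κ`: uniform approximation of all Lipschitz convex functions by `C^1` functions, with a bound for
the derivative that does not depend on the space.
-/

set_option autoImplicit false

open Pool.C1B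

namespace Pool.Agent.Results.MP_0d212c_an.ConvexApproximation

universe u

theorem result (κ : WithTop Cardinal.{u})
    (hκ : ((Cardinal.aleph0 : Cardinal.{u}) : WithTop Cardinal.{u}) ≤ κ) :
    -- every Asplund space (of density at most `κ`) has a `C^1` bump
    (∀ (E : Type u) [NormedAddCommGroup E] [NormedSpace ℝ E] [CompleteSpace E],
      Asplund E → DensityLE κ E →
        ∃ f : E → ℝ, ContDiff ℝ 1 f ∧ (∃ x, f x ≠ 0) ∧
          Bornology.IsBounded (Function.support f)) ↔
    -- Lipschitz convex functions are uniform limits of uniformly Lipschitz `C^1` functions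
    ∃ C : NNReal,
      ∀ (E : Type u) [NormedAddCommGroup E] [NormedSpace ℝ E] [CompleteSpace E],
        Asplund E → DensityLE κ E →
          ∀ g : E → ℝ, ConvexOn ℝ Set.univ g → LipschitzWith 1 g → ∀ ε : ℝ, 0 < ε →
            ∃ f : E → ℝ, ContDiff ℝ 1 f ∧ LipschitzWith C f ∧ ∀ x, |f x - g x| ≤ ε := by
  obtain ⟨K, hK, hiff⟩ := exists_option κ hκ
  constructor
  · intro h
    obtain ⟨C, hC⟩ := convexApprox_of_bump hK
      (fun E => h E.carrier E.asp ((hiff E.carrier).2 E.gen))
    exact ⟨C, fun E _ _ _ hE hd g hgc hgl ε hε =>
      hC ⟨E, hE, (hiff E).1 hd⟩ g hgc hgl ε hε⟩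
  · rintro ⟨C, hC⟩ E _ _ _ hE hd
    obtain ⟨f, h1, _, h2⟩ := hC E hE hd (fun x => ‖x‖) (convexOn_norm convex_univ)
      lipschitzWith_one_norm (1 / 2) (by norm_num)
    exact bump_of_close f h1 h2

end Pool.Agent.Results.MP_0d212c_an.ConvexApproximation
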