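import Pool.Agent.C1B.Assemble
import Pool.Agent.C1B.DenseCard

/-!
Problem MP_0d212c_an, Q1 (does every Asplund space admit a `C^1`-smooth bump function?).

The question is equivalent to a formally much stronger one, on the class of all Asplund spaces
and, level by level, on the class of all Asplund spaces of density at most `κ`, for every
infinite cardinal `κ`: fine `C^1` approximation of all continuous maps (`C^1` partitions of
unity), or that every closed set is the zero set of a Lipschitz `C^1` function.
-/

set_option autoImplicit false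

open Pool.C1B

namespace Pool.Agent.Results.MP_0d212c_an.FineApproximation

universe u v

theorem result (κ : WithTop Cardinal.{u})
    (hκ : ((Cardinal.aleph0 : Cardinal.{u}) : WithTop Cardinal.{u}) ≤ κ) :
    List.TFAE
      [ -- every Asplund space (of density at most `κ`) has a `C^1` bump
        ∀ (E : Type u) [NormedAddCommGroup E] [NormedSpace ℝ E] [CompleteSpace E],
          Asplund E → DensityLE κ E →
            ∃ f : E → ℝ, ContDiff ℝ 1 f ∧ (∃ x, f x ≠ 0) ∧
              Bornology.IsBounded (Function.support f),
        -- fine `C^1` approximation of continuous maps on open sets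
        ∀ (E : Type u) [NormedAddCommGroup E] [NormedSpace ℝ E] [CompleteSpace E],
          Asplund E → DensityLE κ E →
            ∀ (Y : Type v) [NormedAddCommGroup Y] [NormedSpace ℝ Y] (U : Set E) (f : E → Y)
              (ε : E → ℝ), IsOpen U → ContinuousOn f U → ContinuousOn ε U →
                (∀ x ∈ U, 0 < ε x) →
                  ∃ g : E → Y, ContDiffOn ℝ 1 g U ∧ ∀ x ∈ U, ‖g x - f x‖ < ε x,
        -- every closed set is the zero set of a Lipschitz `C^1` function
        ∀ (E : Type u) [NormedAddCommGroup E] [NormedSpace ℝ E] [CompleteSpace E],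
          Asplund E → DensityLE κ E → ∀ F : Set E, IsClosed F →
            ∃ f : E → ℝ, ContDiff ℝ 1 f ∧ LipschitzWith 1 f ∧ (∀ x, 0 ≤ f x ∧ f x ≤ 1) ∧
              ∀ x, f x = 0 ↔ x ∈ F ] := by
  obtain ⟨K, hK, hiff⟩ := exists_option κ hκ
  tfae_have 1 → 2 := by
    intro h E _ _ _ hE hd
    exact fineApprox_of_bump.{u, v} hK (fun E => h E.carrier E.asp ((hiff E.carrier).2 E.gen))
      ⟨E, hE, (hiff E).1 hd⟩
  tfae_have 1 → 3 := by
    intro h E _ _ _ hE hd F hF
    exact zeroSets_of_bump hK (fun E => h E.carrier E.asp ((hiff E.carrier).2 E.gen))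
      ⟨E, hE, (hiff E).1 hd⟩ F hF
  tfae_have 2 → 1 := by
    intro h E _ _ _ hE hd
    exact bump_of_fineApprox.{u, v} (h E hE hd)
  tfae_have 3 → 1 := by
    intro h E _ _ _ hE hd
    obtain ⟨f, h1, _, h2, h3⟩ := lipBump_of_zeroSets (h E hE hd)
    exact ⟨f, h1, h2, h3⟩
  tfae_finish

end Pool.Agent.Results.MP_0d212c_an.FineApproximation
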