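import Pool.Agent.C1B.L2Bump

/-!
Problem MP_0d212c_an, Q1 (does every Asplund space admit a `C^1`-smooth bump function?).

For every normed space `X`, the space `l2(X)` has a `C^1` bump if and only if `X` has a Lipschitz
`C^1` bump, and then every space `l2(ι; X)` has a Lipschitz `C^1` bump.
-/

set_option autoImplicit false

open Pool.C1B

namespace Pool.Agent.Results.MP_0d212c_an.LipschitzBumps

universe u v

theorem result (X : Type u) [NormedAddCommGroup X] [NormedSpace ℝ X] :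
    List.TFAE
      [ -- `X` has a Lipschitz `C^1` bump
        ∃ f : X → ℝ, ContDiff ℝ 1 f ∧ LipschitzWith 1 f ∧ (∃ x, f x ≠ 0) ∧
          Bornology.IsBounded (Function.support f),
        -- the `l2`-sum of countably many copies of `X` has a `C^1` bump
        ∃ f : lp (fun _ : ℕ => X) 2 → ℝ, ContDiff ℝ 1 f ∧ (∃ x, f x ≠ 0) ∧
          Bornology.IsBounded (Function.support f),
        -- all `l2`-sums of copies of `X` have Lipschitz `C^1` bumps
        ∀ ι : Type v, ∃ f : lp (fun _ : ι => X) 2 → ℝ, ContDiff ℝ 1 f ∧ LipschitzWith 1 f ∧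
          (∃ x, f x ≠ 0) ∧ Bornology.IsBounded (Function.support f) ] := by
  have hlip : ∀ (E : Type (max u v)) [NormedAddCommGroup E] [NormedSpace ℝ E],
      (∃ f : E → ℝ, ContDiff ℝ 1 f ∧ LipschitzWith 1 f ∧ (∃ x, f x ≠ 0) ∧
        Bornology.IsBounded (Function.support f)) → LipBump E := by
    rintro E _ _ ⟨f, h1, h2, h3, h4⟩
    exact ⟨f, h1, ⟨1, h2⟩, h3, h4⟩
  have hlip0 : (∃ f : X → ℝ, ContDiff ℝ 1 f ∧ LipschitzWith 1 f ∧ (∃ x, f x ≠ 0) ∧
        Bornology.IsBounded (Function.support f)) → LipBump X := by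
    rintro ⟨f, h1, h2, h3, h4⟩
    exact ⟨f, h1, ⟨1, h2⟩, h3, h4⟩
  tfae_have 1 → 2 := by
    intro h
    obtain ⟨f, h1, _, h2, h3⟩ := lipBump_l2 ℕ (hlip0 h)
    exact ⟨f, h1, h2, h3⟩
  tfae_have 2 → 1 := fun h => (lipBump_of_bump_l2 h).normalize
  tfae_have 1 → 3 := fun h ι => (lipBump_l2 ι (hlip0 h)).normalize
  tfae_have 3 → 1 := fun h => (lipBump_of_l2 PUnit.unit (hlip _ (h PUnit))).normalize
  tfae_finish

end Pool.Agent.Results.MP_0d212c_an.LipschitzBumps
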